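import Pool.Agent.W2helper23.SG.Stm

/-!
# Piece SG1: a common Galois extension of two number fields, with a square root of `-1`
-/

set_option autoImplicit false

namespace Pool.Agent.W2helper27.SG

theorem SG1 : Pool.Agent.W2helper23.SG.P_SG1 := by
  intro F N₁ N₂ _ _ _ _ _ _ _ _ _ _
  let Ω := AlgebraicClosure F
  have f1 : FiniteDimensional F N₁ := Module.Finite.of_restrictScalars_finite ℚ F N₁
  have f2 : FiniteDimensional F N₂ := Module.Finite.of_restrictScalars_finite ℚ F N₂
  let i1 : N₁ →ₐ[F] Ω := IsAlgClosed.lift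
  let i2 : N₂ →ₐ[F] Ω := IsAlgClosed.lift
  obtain ⟨w, hw⟩ : ∃ w : Ω, w * w = -1 := by
    obtain ⟨w, hw⟩ := IsAlgClosed.exists_eq_mul_self (-1 : Ω)
    exact ⟨w, hw.symm⟩
  have g1 : FiniteDimensional F i1.fieldRange :=
    LinearEquiv.finiteDimensional (AlgEquiv.ofInjectiveField i1).toLinearEquiv
  have g2 : FiniteDimensional F i2.fieldRange :=
    LinearEquiv.finiteDimensional (AlgEquiv.ofInjectiveField i2).toLinearEquiv
  have g3 : FiniteDimensional F (IntermediateField.adjoin F {w}) :=
    IntermediateField.adjoin.finiteDimensional (Algebra.IsAlgebraic.isAlgebraic (R := F) w).isIntegral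
  let E : IntermediateField F Ω := (i1.fieldRange ⊔ i2.fieldRange) ⊔ IntermediateField.adjoin F {w}
  have g4 : FiniteDimensional F E := by
    have := IntermediateField.finiteDimensional_sup i1.fieldRange i2.fieldRange
    exact IntermediateField.finiteDimensional_sup _ _
  let N : IntermediateField F Ω := IntermediateField.normalClosure F E Ω
  have hEN : E ≤ N := E.le_normalClosure
  have hN1 : Normal F N := normalClosure.normal F E Ω
  have hN2 : FiniteDimensional F N := normalClosure.is_finiteDimensional F E Ω
  have hN3 : NumberField N := by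
    have : CharZero N := charZero_of_injective_algebraMap (algebraMap F N).injective
    exact { to_charZero := this
            to_finiteDimensional := by
              have := FiniteDimensional.trans ℚ F N
              exact this }
  have m1 : ∀ x, i1 x ∈ N := fun x => hEN ((le_sup_left.trans le_sup_left : i1.fieldRange ≤ E) ⟨x, rfl⟩)
  have m2 : ∀ x, i2 x ∈ N := fun x => hEN ((le_sup_right.trans le_sup_left : i2.fieldRange ≤ E) ⟨x, rfl⟩)
  have m3 : w ∈ N := hEN ((le_sup_right : IntermediateField.adjoin F {w} ≤ E)
    (IntermediateField.mem_adjoin_simple_self F w))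
  let j1 : N₁ →ₐ[F] N := i1.codRestrict N.toSubalgebra m1
  let j2 : N₂ →ₐ[F] N := i2.codRestrict N.toSubalgebra m2
  let a1 : Algebra N₁ N := j1.toRingHom.toAlgebra
  let a2 : Algebra N₂ N := j2.toRingHom.toAlgebra
  have t1 : IsScalarTower F N₁ N := IsScalarTower.of_algebraMap_eq fun x => (j1.commutes x).symm
  have t2 : IsScalarTower F N₂ N := IsScalarTower.of_algebraMap_eq fun x => (j2.commutes x).symm
  have hG : IsGalois F N := ⟨⟩
  refine ⟨N, inferInstance, hN3, inferInstance, a1, a2, t1, t2, hG, ⟨w, m3⟩, ?_⟩
  exact Subtype.ext hw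

end Pool.Agent.W2helper27.SG
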